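import Pool.Agent.Lib.MP_7f377f_mp.G.YCAll

open MeasureTheory Filter Topology Real Pool.Agent.Lib.MP_7f377f_mp.YC

attribute [local instance 100] LieRing.ofAssociativeRing

theorem Pool.Agent.Results.MP_7f377f_mp.CylinderG.result (G : Type) [Group G] [TopologicalSpace G]
    [IsTopologicalGroup G] [CompactSpace G] [MeasurableSpace G] [BorelSpace G]
    (h : Measure G) [h.IsHaarMeasure] [IsProbabilityMeasure h] {N : ℕ}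
    (ρ : G →* Matrix.unitaryGroup (Fin N) ℂ) (hρ : Continuous ρ) (hi : Function.Injective ρ)
    (L : LieSubalgebra ℝ (Matrix (Fin N) (Fin N) ℂ)) [LieAlgebra.IsSimple ℝ L]
    (hL : ∀ X, X ∈ L ↔ ∀ s : ℝ, ∃ g, (ρ g).1 = NormedSpace.exp (s • X)) :
    ∃ c > (0 : ℝ), (∀ X Y : L, killingForm ℝ L X Y = c * (X.1 * Y.1).trace.re) ∧
    ∃ (l : ℕ → ℕ) (b : ℕ → ℝ), Tendsto l atTop atTop ∧
      Tendsto (fun j => b j / log (l j)) atTop (𝓝 (11 * c / (24 * π ^ 2))) ∧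
      (∀ y : Fin 2 → R4, y 0 ≠ y 1 →
        free (Module.finrank ℝ L) y = 3 * Module.finrank ℝ L / ‖y 0 - y 1‖ ^ 8) ∧ ∀ m : ℕ, Odd m →
    ∃ (μ : ℕ → Measure (Link → G)) (S : ∀ {k : ℕ}, (Fin k → R4 → ℝ) → ℝ) (r : ℕ) (κ : Fin r → ℕ)
      (B : ∀ a, Fin (κ a) → R4 → ℝ) (z : Fin r → ℂ) (W : ∀ {k : ℕ}, (Fin k → R4 → ℝ) → ℂ),
      (∀ j, IsProbabilityMeasure (μ j) ∧ ∀ F : C(Link → G, ℝ), Tendsto (fun T => ∫ U, F U
        ∂wilson ρ h (b j) ![T, m * l j, m * l j, m * l j]) atTop (𝓝 (∫ U, F U ∂μ j))) ∧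
      (∀ a, Adm m (B a)) ∧
      (∀ k (f : Fin k → R4 → ℝ), Adm m f →
        Tendsto (fun j => corr ρ (μ j) (l j : ℝ)⁻¹ f) atTop (𝓝 (S f)) ∧
        Tendsto (fun t => ∑ a, ∑ b, star (z a) * z b * S (sand t (B a) f (B b))) atTop (𝓝 (W f)) ∧
        (∀ v, W (fun i y => f i (y + v)) = W f) ∧ W (fun i => theta (f i)) = star (W f)) ∧
      (∀ k R, ∀ δ > 0, ∃ C : ℝ, ∀ (f : Fin k → R4 → ℝ) (L : Fin k → NNReal), Adm m f →
        (∀ i, LipschitzWith (L i) (f i) ∧ ∀ y, f i y ≠ 0 → ‖y‖ ≤ R) →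
        (∀ i j, i ≠ j → ∀ x y, f i x ≠ 0 → f j y ≠ 0 → ∀ z : Fin 4 → ℤ, z 0 = 0 →
          δ ≤ dist x (y + pt m z)) → ‖W f‖ ≤ C * ∏ i, L i) ∧
      (∀ k (f : Fin k → R4 → ℝ), Adm 0 f →
        Tendsto (fun d : ℝ => (log d⁻¹ ^ k : ℝ) * W fun i y => f i (d⁻¹ • y)) (𝓝[>] 0)
          (𝓝 ((24 / (11 * c)) ^ k *
            ∫ y : Fin k → R4, (∏ i, f i (y i)) * free (Module.finrank ℝ L) y : ℝ))) ∧
      ∃ (H : Type) (_ : NormedAddCommGroup H) (_ : InnerProductSpace ℂ H) (_ : CompleteSpace H),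
        Massive H m W :=
  let ⟨c, c0, k, f, l, b, h1, h2, e⟩ := mainA G h ρ hρ hi L hL
  ⟨c, c0, k, l, b, h1, h2, f, e⟩
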