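import Pool.Agent.Lib.MP_7f377f_mp.G.S23Main
import Pool.Agent.Lib.MP_7f377f_mp.YZB

open MeasureTheory Filter Topology Real MvPolynomial Pool.Agent.Lib.MP_7f377f_mp.YZ

attribute [local instance 100] LieRing.ofAssociativeRing

theorem Pool.Agent.Results.MP_7f377f_mp.ExistenceZ.result (G : Type) [Group G] [TopologicalSpace G]
    [IsTopologicalGroup G] [CompactSpace G] [MeasurableSpace G] [BorelSpace G]
    (h : Measure G) [h.IsHaarMeasure] [IsProbabilityMeasure h] {N : ℕ}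
    (ρ : G →* Matrix.unitaryGroup (Fin N) ℂ) (hρ : Continuous ρ) (hi : Function.Injective ρ)
    (L : LieSubalgebra ℝ (Matrix (Fin N) (Fin N) ℂ)) [LieAlgebra.IsSimple ℝ L]
    (hL : ∀ X, X ∈ L ↔ ∀ s : ℝ, ∃ g, (ρ g).1 = NormedSpace.exp (s • X))
    {d : ℕ} (e : Module.Basis (Fin d) ℝ L)
    (he : ∀ a b, -((e a).1 * (e b).1).trace.re = if a = b then 1 else 0)
    (V : Subalgebra ℂ (Lab d)) (hV : V = Inv ρ fun a => e a) :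
    ∃ c > (0 : ℝ), (∀ X Y : L, killingForm ℝ L X Y = c * (X.1 * Y.1).trace.re) ∧
    ∃ (n : ℕ → ℕ+) (a b : ℕ → ℝ) (O : ℕ → Lab d → Cfg G ℤ → ℂ) (S W : Fp d → ℂ) (r : ℕ → ℕ)
      (B : ∀ j, Fin (r j) → Fp d) (T : Cor d) (M : ℝ → V → V),
      Tendsto a atTop (𝓝[>] 0) ∧ Tendsto (fun j => a j * n j) atTop atTop ∧
      Tendsto (fun j => b j / log (a j)⁻¹) atTop (𝓝 (11 * c / (24 * π ^ 2))) ∧
      (∀ P ∈ V, ∃ R, ∀ j, Obs R (O j P)) ∧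
      (∀ j, ∃ m : ℝ, O j lag = fun U => ↑((dens ρ U - m) / a j ^ 4)) ∧
      (∀ (j : ℕ) i, B j i ∈ Loc V {y | j < y 0}) ∧
      (∀ Z ∈ Loc V Set.univ,
        Tendsto (fun j => vev ρ h (b j) (n j) (a j) (O j) Z) atTop (𝓝 (S Z)) ∧
        Tendsto (fun j => S (ins (B j) Z)) atTop (𝓝 (W Z)) ∧
        ∀ᶠ j in atTop, ins (B j) Z ∈ Loc V Set.univ) ∧
      (∀ k P f, T k P f = W (∏ i, X (P i, f i))) ∧
      Wightman V T ∧ Af V (11 * c / (24 * π ^ 2)) T M ∧ OPE V T M ∧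
      WardA V (11 * c / (24 * π ^ 2)) T ∧ Dim V M Alt 1 ∧ Dim V M Weyl (-7 / 11) ∧
      ∃ (f : Fin 4 → R4 → ℝ) (Y : Fin 4 → Fp d), Adm f ∧
        (∀ i j, i < j → ∀ x ∈ tsupport (f i), ∀ y ∈ tsupport (f j), x 0 < y 0) ∧
        (∀ i, Y i = X (lag, f i) - C (W (X (lag, f i)))) ∧ W (Y 0 * Y 1 * Y 2 * Y 3) ≠
          W (Y 0 * Y 1) * W (Y 2 * Y 3) + W (Y 0 * Y 2) * W (Y 1 * Y 3) +
            W (Y 0 * Y 3) * W (Y 1 * Y 2) := by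
  subst hV
  obtain ⟨c, hc, k, n, a, b, O, S, W, r, B, T, M, h1, h2, h3, h4, h5, h6, h7, h8, w, f, o, -, u,
    v⟩ := Pool.Agent.Lib.MP_7f377f_mp.Zg.mainE G h ρ hρ hi L hL e he
  exact ⟨c, hc, k, n, a, b, O, S, W, r, B, T, _, h1, h2, h3, h4, h5, h6, h7, h8, w, f.af, o.ope,
    u.1, u.2.1, u.2.2, v⟩
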