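import Pool.Agent.Lib.MP_7f377f_mp.G.YQMain

open MeasureTheory Filter Topology Real Pool.Agent.Lib.MP_7f377f_mp.YQ
  Pool.Agent.Lib.MP_7f377f_mp.WA2

theorem Pool.Agent.Results.MP_7f377f_mp.TwistedPlane.result (N : ℕ) (hN : 2 ≤ N)
    [MeasurableSpace (SU N)] [BorelSpace (SU N)] (h : Measure (SU N)) [h.IsHaarMeasure]
    [IsProbabilityMeasure h] (ω : ℂ) (hω : IsPrimitiveRoot ω N) (z : SU N) (hz : z.1 = ω • 1) :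
    (∀ y : Fin 2 → R4, y 0 ≠ y 1 → free (N ^ 2 - 1) y = 3 * (N ^ 2 - 1) / ‖y 0 - y 1‖ ^ 8) ∧
    ∃ (e : ℕ → ℕ) (b : ℕ → ℝ) (s₀ : ℕ), Tendsto e atTop atTop ∧
      Tendsto (fun j => b j / log (3 ^ e j)) atTop (𝓝 (11 * N / (12 * π ^ 2))) ∧
    ∀ s ≥ s₀, ∃ Δ > (0 : ℝ), ∃ (μ : ℕ → Measure (Link → SU N)),
      (∀ᶠ j in atTop, ∃ ν : ℕ → Measure (Link → SU N), (∀ R > 0,
        Lim (fun T => wilson h (b j) z ![T, R, 3 ^ (e j - s), 3 ^ (e j - s)]) (ν R)) ∧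
        Lim ν (μ j)) ∧
    ∃ S : ∀ {k : ℕ}, (Fin k → R4 → ℝ) → ℝ,
      (∀ k (f : Fin k → R4 → ℝ), Adm (3 ^ s)⁻¹ f →
        Tendsto (fun j => corr (μ j) (3 ^ e j)⁻¹ f) atTop (𝓝 (S f)) ∧
        (∀ v, S (fun i y => f i (y + v)) = S f) ∧
        S (fun i y => f i (WithLp.toLp 2 ![-y 0, y 1, y 2, y 3])) = S f ∧
        S (fun i y => f i (WithLp.toLp 2 ![y 1, y 0, y 2, y 3])) = S f ∧
        ((∀ i j, i ≠ j → ∀ x ∈ tsupport (f i), ∀ y ∈ tsupport (f j), x 0 ≠ y 0 ∨ x 1 ≠ y 1) →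
          ∀ φ : ℝ, S (fun i y => f i (WithLp.toLp 2
            ![cos φ * y 0 - sin φ * y 1, sin φ * y 0 + cos φ * y 1, y 2, y 3])) = S f)) ∧
      (∀ k R, ∀ δ > 0, ∃ C : ℝ, ∀ (f : Fin k → R4 → ℝ) (L : Fin k → NNReal), Adm (3 ^ s)⁻¹ f →
        (∀ i, LipschitzWith (L i) (f i) ∧ ∀ y, f i y ≠ 0 → ‖y‖ ≤ R) →
        (∀ i j, i ≠ j → ∀ x y, f i x ≠ 0 → f j y ≠ 0 → ∀ p q : ℤ,
          δ ≤ dist x (y + WithLp.toLp 2 ![0, 0, (3 ^ s : ℝ)⁻¹ * p, (3 ^ s : ℝ)⁻¹ * q])) →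
        |S f| ≤ C * ∏ i, L i) ∧
      (∀ k (f : Fin k → R4 → ℝ), Adm 0 f →
        Tendsto (fun t : ℝ => log t⁻¹ ^ k * S fun i y => f i (t⁻¹ • y)) (𝓝[>] 0)
          (𝓝 ((12 / (11 * N)) ^ k * ∫ y : Fin k → R4, (∏ i, f i (y i)) * free (N ^ 2 - 1) y))) ∧
      (∀ (n : ℕ) (k : Fin n → ℕ) (F : ∀ u, Fin (k u) → R4 → ℝ) (c : Fin n → ℝ) (G : ℝ → ℝ),
        (∀ u, Adm (3 ^ s)⁻¹ (F u) ∧ ∀ i, ∀ y ∈ tsupport (F u i), 0 < y 0) →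
        (∀ t, G t = ∑ u, ∑ v, c u * c v * S (Fin.append
          (fun i y => F u i (WithLp.toLp 2 ![-y 0, y 1, y 2, y 3]))
          fun i y => F v i (WithLp.toLp 2 ![y 0 - t, y 1, y 2, y 3]))) →
        ∀ t ≥ 0, 0 ≤ G t ∧ G t - (∑ u, c u * S (F u)) ^ 2 ≤ exp (-Δ * t) * G 0) ∧
      ∃ W : ∀ n, (Fin n → M2 → ℝ) → (Fin n → M2 → ℝ) → ℝ,
        (∀ n g f, W n g f = S fun i y =>
          f i (WithLp.toLp 2 ![y 0, y 1]) * g i (WithLp.toLp 2 ![y 2, y 3])) ∧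
        Wightman (3 ^ s)⁻¹ Δ W ∧
        ∃ g f : Fin 4 → M2 → ℝ, (∀ i, Cc (g i) ∧ Cc (f i)) ∧
          (∀ i j, i < j → ∀ x ∈ tsupport (f i), ∀ y ∈ tsupport (f j), x 0 < y 0) ∧
          W 4 g f ≠ W 2 ![g 0, g 1] ![f 0, f 1] * W 2 ![g 2, g 3] ![f 2, f 3] +
            W 2 ![g 0, g 2] ![f 0, f 2] * W 2 ![g 1, g 3] ![f 1, f 3] +
            W 2 ![g 0, g 3] ![f 0, f 3] * W 2 ![g 1, g 2] ![f 1, f 2] :=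
  main hN h hω z hz
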